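import Pool.Agent.K7.H15.AG.V2MB

/-!
# Project AG, job V2, part 5: the difference of the sum and the integral over one block

Author: helper15.
-/

set_option autoImplicit false

namespace Pool.Agent.K7.H15.AG
open Finset MeasureTheory Complex

open Pool.Agent.K7.H74.AF (lo blk)
open Pool.Agent.K7.H74.AG (SB MB seg)

/-- the finer form of part 3, for the blocks `c + 1` -/
def P3 (k m : ℕ) : Prop := ∃ C : ℝ, 1 ≤ C ∧ ∀ (c J : ℕ) (α : ℝ), c + 1 ≤ J → α ≠ 0 →
  (∫ a, ‖SB k (c + 1) (α * a)‖ ^ 2 ∂(seg m)) ≤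
    C * (1 + J) * ((3 : ℝ) ^ c + ((3 : ℝ) ^ c) ^ 2 / (|α| * ((3 : ℝ) ^ c) ^ k))

lemma blk_succ (a : ℕ) : blk (a + 1) = Ico (3 ^ a) (3 * 3 ^ a) := by
  unfold blk lo
  rw [if_neg (Nat.succ_ne_zero a), Nat.add_sub_cancel, pow_succ, mul_comm (3 ^ a) 3]

lemma SB_succ (k a : ℕ) (α : ℝ) : SB k (a + 1) α = Pool.Agent.K7.H74.WS.S k (3 ^ a) α 0 := by
  unfold SB Pool.Agent.K7.H74.WS.S
  rw [blk_succ]
  refine sum_congr rfl fun x _ => ?_
  rw [add_zero]
  rfl

lemma SB_cont (k c : ℕ) : Continuous fun α : ℝ => SB k c α := by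
  unfold SB
  refine continuous_finsetSum _ fun x _ => ?_
  exact Pool.Agent.K7.H74.WS.e_cont.comp (by fun_prop)

lemma MB_cont (k c : ℕ) : Continuous fun α : ℝ => MB k (c + 1) α := by
  have : (fun α : ℝ => MB k (c + 1) α) = fun α => Pool.Agent.K7.H74.WS.M k (3 ^ c) α := by
    funext α
    exact MB_succ k c α
  rw [this]
  exact Pool.Agent.K7.H74.WS.M_cont k (3 ^ c)

lemma SB_zero (k : ℕ) (α : ℝ) : ‖SB k 0 α‖ ≤ 1 := by
  unfold SB
  have h1 : blk 0 = {0} := by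
    unfold blk lo
    simp
  rw [h1, sum_singleton]
  exact (Pool.Agent.K7.H74.WS.norm_e _).le

lemma integrable_cont {m : ℕ} {f : ℝ → ℝ} (hf : Continuous f) : Integrable f (seg m) :=
  hf.integrableOn_Icc

/-- the difference, pointwise -/
lemma D_le (n c : ℕ) (β : ℝ) : ‖SB (n + 2) (c + 1) β - MB (n + 2) (c + 1) β‖ ≤
    (4 * Real.pi * (n + 2) * 3 ^ (n + 1)) * (|β| * ((3 : ℝ) ^ c) ^ (n + 2)) := by
  rw [SB_succ, MB_succ]
  have h := Pool.Agent.K7.H74.WS.dev (m := n) (P := 3 ^ c) (Nat.one_le_pow _ _ (by norm_num)) β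
    (ξ := 0) le_rfl zero_le_one
  push_cast at h ⊢
  exact h

/-- a finer bound for the mean square of the integral -/
lemma MB_fine (n m : ℕ) (hm : 1 ≤ m) (c : ℕ) {α : ℝ} (hα : α ≠ 0) :
    (∫ a, ‖MB (n + 2) (c + 1) (α * a)‖ ^ 2 ∂(seg m)) ≤
      2 * m * m * (((3 : ℝ) ^ c) ^ 2 / (|α| * ((3 : ℝ) ^ c) ^ (n + 2))) := by
  have hm1 : (1 : ℝ) ≤ m := by exact_mod_cast hm
  have hm0 : (0 : ℝ) < m := by linarith
  have hα0 : 0 < |α| := abs_pos.2 hα
  have hP0 : (0 : ℝ) < (3 : ℝ) ^ c := by positivity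
  have h := int_le hm (f := fun a => ‖MB (n + 2) (c + 1) (α * a)‖ ^ 2)
    (K := 2 * m * (((3 : ℝ) ^ c) ^ 2 / (|α| * ((3 : ℝ) ^ c) ^ (n + 2))))
    (fun a => by positivity) (by positivity) (fun a ha _ => by
      have ha0 : 0 < a := lt_of_lt_of_le (by positivity) ha
      have hβ : α * a ≠ 0 := mul_ne_zero hα ha0.ne'
      rw [MB_succ]
      have h1 := Pool.Agent.K7.H74.WS.M_le (m := n) (P := 3 ^ c) (Nat.one_le_pow _ _ (by norm_num)) hβ
      have h2 := Pool.Agent.K7.H74.WS.M_le' (n + 2) (3 ^ c) (α * a)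
      push_cast at h1 h2
      have h4 : 1 / (|α * a| * ((3 : ℝ) ^ c) ^ (n + 1)) ≤ m * (1 / (|α| * ((3 : ℝ) ^ c) ^ (n + 1))) := by
        rw [abs_mul, abs_of_pos ha0]
        have : m * (1 / (|α| * ((3 : ℝ) ^ c) ^ (n + 1))) = 1 / (|α| * (1 / m) * ((3 : ℝ) ^ c) ^ (n + 1)) := by
          field_simp
        rw [this]
        apply one_div_le_one_div_of_le (by positivity)
        gcongr
      have h5 : ‖Pool.Agent.K7.H74.WS.M (n + 2) (3 ^ c) (α * a)‖ ≤ m * (1 / (|α| * ((3 : ℝ) ^ c) ^ (n + 1))) :=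
        h1.trans h4
      calc ‖Pool.Agent.K7.H74.WS.M (n + 2) (3 ^ c) (α * a)‖ ^ 2
          = ‖Pool.Agent.K7.H74.WS.M (n + 2) (3 ^ c) (α * a)‖ *
            ‖Pool.Agent.K7.H74.WS.M (n + 2) (3 ^ c) (α * a)‖ := by ring
        _ ≤ (m * (1 / (|α| * ((3 : ℝ) ^ c) ^ (n + 1)))) * (2 * (3 : ℝ) ^ c) :=
            mul_le_mul h5 h2 (norm_nonneg _) (by positivity)
        _ = 2 * m * (((3 : ℝ) ^ c) ^ 2 / (|α| * ((3 : ℝ) ^ c) ^ (n + 2))) := by
            rw [pow_succ ((3 : ℝ) ^ c) (n + 1)]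
            field_simp)
  refine h.trans (le_of_eq ?_)
  ring

/-- part 5 of `StV2` -/
theorem diff (hP : ∀ k m : ℕ, 2 ≤ k → 1 ≤ m → P3 k m) : ∀ k m : ℕ, 2 ≤ k → 1 ≤ m →
    ∃ C : ℝ, 1 ≤ C ∧ ∀ (c J : ℕ) (α : ℝ), c ≤ J → α ≠ 0 →
    (∫ a, ‖SB k c (α * a) - MB k c (α * a)‖ ^ 2 ∂(seg m)) ≤
      C * (1 + J) * ((3 : ℝ) ^ J + ((3 : ℝ) ^ J) ^ ((k : ℝ) / 2 + 1) * |α| ^ (1 / 2 : ℝ)) := by
  intro k m hk hm
  obtain ⟨C, hC, hC3⟩ := hP k m hk hm
  obtain ⟨n, rfl⟩ : ∃ n, k = n + 2 := ⟨k - 2, by omega⟩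
  have hm1 : (1 : ℝ) ≤ m := by exact_mod_cast hm
  have hm0 : (0 : ℝ) < m := by linarith
  set K : ℝ := 4 * Real.pi * (n + 2) * 3 ^ (n + 1) with hK
  have hK0 : 0 < K := by have := Real.pi_pos; positivity
  refine ⟨4 * m + K ^ 2 * m ^ 3 + 2 * C + 4 * m * m, by nlinarith [sq_nonneg K, mul_nonneg (sq_nonneg K) (pow_nonneg hm0.le 3)], ?_⟩
  intro c J α hcJ hα
  have hα0 : 0 < |α| := abs_pos.2 hα
  set Z : ℝ := (3 : ℝ) ^ J with hZ
  have hZ1 : (1 : ℝ) ≤ Z := one_le_pow₀ (by norm_num)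
  have hJ0 : (0 : ℝ) ≤ J := Nat.cast_nonneg J
  set Y : ℝ := Z ^ (((n + 2 : ℕ) : ℝ) / 2 + 1) * |α| ^ (1 / 2 : ℝ) with hY
  have hY0 : 0 ≤ Y := by positivity
  have hKm : 0 ≤ K ^ 2 * (m : ℝ) ^ 3 := by positivity
  rcases Nat.eq_zero_or_pos c with rfl | hc
  · have h := int_le hm (f := fun a => ‖SB (n + 2) 0 (α * a) - MB (n + 2) 0 (α * a)‖ ^ 2) (K := 4)
        (fun a => by positivity) (by norm_num)
        (fun a _ _ => by
          have h1 := MB_triv (n + 2) 0 (α * a)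
          have h2 := SB_zero (n + 2) (α * a)
          rw [pow_zero] at h1
          have h3 : ‖SB (n + 2) 0 (α * a) - MB (n + 2) 0 (α * a)‖ ≤ 2 := by
            refine (norm_sub_le _ _).trans ?_
            linarith
          calc ‖SB (n + 2) 0 (α * a) - MB (n + 2) 0 (α * a)‖ ^ 2 ≤ 2 ^ 2 :=
                pow_le_pow_left₀ (norm_nonneg _) h3 2
            _ = 4 := by norm_num)
    refine h.trans ?_
    calc (m : ℝ) * 4 = (4 * m) * 1 * 1 := by ring
      _ ≤ (4 * m + K ^ 2 * m ^ 3 + 2 * C + 4 * m * m) * (1 + J) * (Z + Y) := by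
          apply mul_le_mul
          · apply mul_le_mul
            · nlinarith
            · linarith
            · norm_num
            · positivity
          · linarith
          · norm_num
          · positivity
  obtain ⟨d, rfl⟩ : ∃ d, c = d + 1 := ⟨c - 1, by omega⟩
  set P : ℝ := (3 : ℝ) ^ d with hPd
  have hP0 : 0 < P := by positivity
  have hPZ : P ≤ Z := pow_le_pow_right₀ (by norm_num) (by omega)
  set s : ℝ := Real.sqrt (|α| * P ^ (n + 2)) with hs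
  have hA0 : 0 < |α| * P ^ (n + 2) := by positivity
  have hs0 : 0 < s := Real.sqrt_pos.2 hA0
  have hs2 : s ^ 2 = |α| * P ^ (n + 2) := Real.sq_sqrt hA0.le
  have hPs : P * s ≤ Y := by
    have e1 : s = |α| ^ (1 / 2 : ℝ) * P ^ (((n + 2 : ℕ) : ℝ) / 2) := by
      rw [hs, Real.sqrt_eq_rpow, Real.mul_rpow hα0.le (by positivity), ← Real.rpow_natCast,
        ← Real.rpow_mul hP0.le]
      congr 2
      ring
    rw [e1, hY]
    have e2 : P * (|α| ^ (1 / 2 : ℝ) * P ^ (((n + 2 : ℕ) : ℝ) / 2)) =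
        P ^ (((n + 2 : ℕ) : ℝ) / 2 + 1) * |α| ^ (1 / 2 : ℝ) := by
      rw [Real.rpow_add hP0, Real.rpow_one]
      ring
    rw [e2]
    apply mul_le_mul_of_nonneg_right _ (Real.rpow_nonneg hα0.le _)
    exact Real.rpow_le_rpow hP0.le hPZ (by positivity)
  rcases le_total (s ^ 3) P with h | h
  · have h1 := int_le hm (f := fun a => ‖SB (n + 2) (d + 1) (α * a) - MB (n + 2) (d + 1) (α * a)‖ ^ 2)
        (K := K ^ 2 * m ^ 2 * (P * s))
        (fun a => by positivity) (by positivity)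
        (fun a ha ha' => by
          have ha0 : 0 < a := lt_of_lt_of_le (by positivity) ha
          have h2 := D_le n d (α * a)
          rw [← hK, ← hPd, abs_mul, abs_of_pos ha0] at h2
          have h3 : ‖SB (n + 2) (d + 1) (α * a) - MB (n + 2) (d + 1) (α * a)‖ ≤ K * m * s ^ 2 := by
            refine h2.trans ?_
            rw [hs2]
            have : K * (|α| * a * P ^ (n + 2)) = K * a * (|α| * P ^ (n + 2)) := by ring
            rw [this]
            gcongr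
          calc ‖SB (n + 2) (d + 1) (α * a) - MB (n + 2) (d + 1) (α * a)‖ ^ 2 ≤ (K * m * s ^ 2) ^ 2 :=
                pow_le_pow_left₀ (norm_nonneg _) h3 2
            _ = K ^ 2 * m ^ 2 * (s ^ 3 * s) := by ring
            _ ≤ K ^ 2 * m ^ 2 * (P * s) := by gcongr)
    refine h1.trans ?_
    calc (m : ℝ) * (K ^ 2 * m ^ 2 * (P * s)) = (K ^ 2 * m ^ 3) * 1 * (P * s) := by ring
      _ ≤ (4 * m + K ^ 2 * m ^ 3 + 2 * C + 4 * m * m) * (1 + J) * (Z + Y) := by
          apply mul_le_mul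
          · apply mul_le_mul
            · nlinarith
            · linarith
            · norm_num
            · positivity
          · linarith
          · positivity
          · positivity
  · have h1 := hC3 d J α hcJ hα
    have h2 := MB_fine n m hm d hα
    rw [← hPd] at h1 h2
    have hq : P ^ 2 / (|α| * P ^ (n + 2)) ≤ P * s := by
      rw [← hs2, div_le_iff₀ (by positivity)]
      nlinarith
    have hSi : Integrable (fun a : ℝ => ‖SB (n + 2) (d + 1) (α * a)‖ ^ 2) (seg m) :=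
      integrable_cont (((SB_cont (n + 2) (d + 1)).comp (by fun_prop)).norm.pow 2)
    have hMi : Integrable (fun a : ℝ => ‖MB (n + 2) (d + 1) (α * a)‖ ^ 2) (seg m) :=
      integrable_cont (((MB_cont (n + 2) d).comp (by fun_prop)).norm.pow 2)
    have h3 : ∫ a, ‖SB (n + 2) (d + 1) (α * a) - MB (n + 2) (d + 1) (α * a)‖ ^ 2 ∂(seg m) ≤
        ∫ a, (2 * ‖SB (n + 2) (d + 1) (α * a)‖ ^ 2 + 2 * ‖MB (n + 2) (d + 1) (α * a)‖ ^ 2) ∂(seg m) := by
      apply integral_mono_of_nonneg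
      · exact Filter.Eventually.of_forall fun a => by positivity
      · exact (hSi.const_mul 2).add (hMi.const_mul 2)
      · refine Filter.Eventually.of_forall fun a => ?_
        have h4 := norm_sub_le (SB (n + 2) (d + 1) (α * a)) (MB (n + 2) (d + 1) (α * a))
        have h5 := norm_nonneg (SB (n + 2) (d + 1) (α * a) - MB (n + 2) (d + 1) (α * a))
        simp only
        nlinarith [sq_nonneg (‖SB (n + 2) (d + 1) (α * a)‖ - ‖MB (n + 2) (d + 1) (α * a)‖),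
          norm_nonneg (SB (n + 2) (d + 1) (α * a)), norm_nonneg (MB (n + 2) (d + 1) (α * a))]
    rw [integral_add (hSi.const_mul 2) (hMi.const_mul 2), integral_const_mul, integral_const_mul] at h3
    have hCJ : 0 ≤ C * (1 + J) := by positivity
    have h6 : C * (1 + J) * (P + P ^ 2 / (|α| * P ^ (n + 2))) ≤ C * (1 + J) * (Z + Y) :=
      mul_le_mul_of_nonneg_left (by linarith) hCJ
    have h7 : 2 * m * m * (P ^ 2 / (|α| * P ^ (n + 2))) ≤ 2 * m * m * (1 + J) * (Z + Y) := by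
      have : P ^ 2 / (|α| * P ^ (n + 2)) ≤ (1 + J) * (Z + Y) := by
        have : P * s ≤ 1 * (Z + Y) := by linarith
        refine hq.trans (this.trans ?_)
        apply mul_le_mul_of_nonneg_right _ (by linarith)
        linarith
      calc 2 * m * m * (P ^ 2 / (|α| * P ^ (n + 2))) ≤ 2 * m * m * ((1 + J) * (Z + Y)) := by gcongr
        _ = _ := by ring
    have h8 : 0 ≤ (4 * m + K ^ 2 * (m : ℝ) ^ 3) * (1 + J) * (Z + Y) := by positivity
    calc _ ≤ _ := h3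
      _ ≤ 2 * (C * (1 + J) * (Z + Y)) + 2 * (2 * m * m * (1 + J) * (Z + Y)) := by linarith
      _ ≤ _ := by nlinarith

end Pool.Agent.K7.H15.AG
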