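import Mathlib
import Pool.Agent.K7.H74.AG.Stm
import Pool.Agent.K7.H74.WS.Sec

/-!
# Project AG, job V2: the integral over one block (parts 2 and 4)

Author: helper15.
-/

set_option autoImplicit false

namespace Pool.Agent.K7.H15.AG
open Finset MeasureTheory Complex

open Pool.Agent.K7.H74.AF (lo blk)
open Pool.Agent.K7.H74.AG (MB seg)

lemma MB_succ (k a : ℕ) (α : ℝ) : MB k (a + 1) α = Pool.Agent.K7.H74.WS.M k (3 ^ a) α := by
  unfold MB Pool.Agent.K7.H74.WS.M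
  have h1 : ((lo (a + 1) : ℕ) : ℝ) = ((3 ^ a : ℕ) : ℝ) := by
    unfold lo
    rw [if_neg (Nat.succ_ne_zero a), Nat.add_sub_cancel]
  have h2 : (3 : ℝ) ^ (a + 1) = ((3 * 3 ^ a : ℕ) : ℝ) := by
    push_cast
    ring
  rw [h1, h2]
  rfl

/-- the trivial bound -/
lemma MB_triv (k c : ℕ) (α : ℝ) : ‖MB k c α‖ ≤ (3 : ℝ) ^ c := by
  unfold MB
  have hlo : ((lo c : ℕ) : ℝ) ≤ (3 : ℝ) ^ c := by
    unfold lo
    split_ifs with h
    · simp
    · push_cast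
      exact pow_le_pow_right₀ (by norm_num) (by omega)
  have hlo0 : (0 : ℝ) ≤ ((lo c : ℕ) : ℝ) := Nat.cast_nonneg _
  have h := intervalIntegral.norm_integral_le_of_norm_le_const (a := ((lo c : ℕ) : ℝ))
    (b := (3 : ℝ) ^ c) (C := (1 : ℝ))
    (f := fun u => Pool.Agent.K7.H74.AF.e (α * u ^ k)) (fun u _ => (Pool.Agent.K7.H74.WS.norm_e _).le)
  rw [one_mul, abs_of_nonneg (by linarith)] at h
  linarith

/-- the pointwise bound for the blocks `c + 1` -/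
lemma MB_sq (m c : ℕ) {β : ℝ} (hβ : β ≠ 0) :
    ‖MB (m + 2) (c + 1) β‖ ^ 2 ≤ 4 * |β| ^ (-(2 : ℝ) / ((m + 2 : ℕ) : ℝ)) := by
  have hβ0 : 0 < |β| := abs_pos.2 hβ
  set u : ℝ := |β| ^ (-(1 : ℝ) / ((m + 2 : ℕ) : ℝ)) with hu
  have hu0 : 0 < u := Real.rpow_pos_of_pos hβ0 _
  have hu1 : |β| * u ^ (m + 2) = 1 := by
    rw [hu, ← Real.rpow_natCast, ← Real.rpow_mul hβ0.le]
    have : -(1 : ℝ) / ((m + 2 : ℕ) : ℝ) * ((m + 2 : ℕ) : ℝ) = -1 := by
      field_simp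
    rw [this, Real.rpow_neg_one, mul_inv_cancel₀ hβ0.ne']
  have hu2 : |β| ^ (-(2 : ℝ) / ((m + 2 : ℕ) : ℝ)) = u ^ 2 := by
    rw [hu, ← Real.rpow_natCast, ← Real.rpow_mul hβ0.le]
    congr 1
    push_cast
    ring
  rw [hu2, MB_succ]
  set P : ℕ := 3 ^ c with hP
  have hP1 : 1 ≤ P := Nat.one_le_pow _ _ (by norm_num)
  have hP0 : (0 : ℝ) < P := by exact_mod_cast hP1
  have h1 := Pool.Agent.K7.H74.WS.M_le (m := m) hP1 hβ
  have h2 := Pool.Agent.K7.H74.WS.M_le' (m + 2) P β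
  set M : ℝ := ‖Pool.Agent.K7.H74.WS.M (m + 2) P β‖ with hM
  have hM0 : 0 ≤ M := norm_nonneg _
  rcases le_total (P : ℝ) u with h | h
  · nlinarith
  · have h3 : 1 / (|β| * (P : ℝ) ^ (m + 1)) * P ≤ u ^ 2 := by
      have e1 : 1 / (|β| * (P : ℝ) ^ (m + 1)) * P = u ^ (m + 2) / (P : ℝ) ^ m := by
        have : 1 / |β| = u ^ (m + 2) := by
          rw [div_eq_iff hβ0.ne']
          linarith
        rw [← this, pow_succ]
        field_simp
      rw [e1, div_le_iff₀ (by positivity), pow_add, mul_comm]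
      exact mul_le_mul_of_nonneg_left (pow_le_pow_left₀ hu0.le h m) (by positivity)
    calc M ^ 2 = M * M := by ring
      _ ≤ (1 / (|β| * (P : ℝ) ^ (m + 1))) * (2 * P) := by
          apply mul_le_mul h1 h2 hM0
          positivity
      _ = 2 * (1 / (|β| * (P : ℝ) ^ (m + 1)) * P) := by ring
      _ ≤ 4 * u ^ 2 := by nlinarith [sq_nonneg u]

/-- the integral of a bounded function over `[1 / m, m]` -/
lemma int_le {m : ℕ} (hm : 1 ≤ m) {f : ℝ → ℝ} {K : ℝ} (hf : ∀ a, 0 ≤ f a) (hK : 0 ≤ K)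
    (h : ∀ a : ℝ, 1 / (m : ℝ) ≤ a → a ≤ m → f a ≤ K) : ∫ a, f a ∂(seg m) ≤ m * K := by
  unfold seg
  have hm1 : (1 : ℝ) ≤ m := by exact_mod_cast hm
  have hinv : 1 / (m : ℝ) ≤ 1 := by
    rw [div_le_one (by linarith)]
    exact hm1
  have hinv0 : 0 ≤ 1 / (m : ℝ) := by positivity
  have h1 : ∫ a, f a ∂(volume.restrict (Set.Icc (1 / (m : ℝ)) m)) ≤
      ∫ a, K ∂(volume.restrict (Set.Icc (1 / (m : ℝ)) m)) := by
    apply integral_mono_of_nonneg
    · exact Filter.Eventually.of_forall hf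
    · exact integrable_const K
    · exact (ae_restrict_mem measurableSet_Icc).mono fun a ha => h a ha.1 ha.2
  refine h1.trans ?_
  rw [integral_const, smul_eq_mul]
  apply mul_le_mul_of_nonneg_right _ hK
  rw [Measure.real, Measure.restrict_apply MeasurableSet.univ, Set.univ_inter, Real.volume_Icc,
    ENNReal.toReal_ofReal (by linarith)]
  linarith

lemma rpow_le {m : ℕ} (hm : 1 ≤ m) {k : ℕ} (hk : 2 ≤ k) {α a : ℝ} (hα : α ≠ 0)
    (ha : 1 / (m : ℝ) ≤ a) :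
    |α * a| ^ (-(2 : ℝ) / (k : ℝ)) ≤ m * |α| ^ (-(2 : ℝ) / (k : ℝ)) := by
  have hm1 : (1 : ℝ) ≤ m := by exact_mod_cast hm
  have hm0 : (0 : ℝ) < m := by linarith
  have ha0 : 0 < a := lt_of_lt_of_le (by positivity) ha
  have hk2 : (2 : ℝ) ≤ k := by exact_mod_cast hk
  have hα0 : 0 < |α| := abs_pos.2 hα
  rw [abs_mul, abs_of_pos ha0, Real.mul_rpow hα0.le ha0.le, mul_comm]
  apply mul_le_mul_of_nonneg_right _ (Real.rpow_nonneg hα0.le _)
  have e0 : -(2 : ℝ) / (k : ℝ) ≤ 0 := div_nonpos_of_nonpos_of_nonneg (by norm_num) (by linarith)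
  calc a ^ (-(2 : ℝ) / (k : ℝ)) ≤ (1 / (m : ℝ)) ^ (-(2 : ℝ) / (k : ℝ)) :=
        Real.rpow_le_rpow_of_nonpos (by positivity) ha e0
    _ = (m : ℝ) ^ ((2 : ℝ) / (k : ℝ)) := by
        rw [one_div, Real.inv_rpow hm0.le, ← Real.rpow_neg hm0.le]
        congr 1
        ring
    _ ≤ (m : ℝ) ^ (1 : ℝ) := by
        apply Real.rpow_le_rpow_of_exponent_le hm1
        rw [div_le_one (by linarith)]
        exact hk2
    _ = m := Real.rpow_one _

/-- parts 2 and 4 of `StV2` -/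
theorem mb : ∀ k m : ℕ, 2 ≤ k → 1 ≤ m → ∃ C : ℝ, 1 ≤ C ∧ ∀ (c J : ℕ) (α : ℝ), c ≤ J → α ≠ 0 →
    (∫ a, ‖MB k c (α * a)‖ ^ 2 ∂(seg m)) ≤ C * ((3 : ℝ) ^ J) ^ 2 ∧
    (∫ a, ‖MB k c (α * a)‖ ^ 2 ∂(seg m)) ≤ C * (1 + J) * ((3 : ℝ) ^ J + |α| ^ (-(2 : ℝ) / k)) := by
  intro k m hk hm
  obtain ⟨n, rfl⟩ : ∃ n, k = n + 2 := ⟨k - 2, by omega⟩
  have hm1 : (1 : ℝ) ≤ m := by exact_mod_cast hm
  refine ⟨4 * m * m, by nlinarith, ?_⟩
  intro c J α hcJ hα
  have hα0 : 0 < |α| := abs_pos.2 hα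
  have hZ1 : (1 : ℝ) ≤ (3 : ℝ) ^ J := one_le_pow₀ (by norm_num)
  have hcZ : (3 : ℝ) ^ c ≤ (3 : ℝ) ^ J := pow_le_pow_right₀ (by norm_num) hcJ
  have hJ0 : (0 : ℝ) ≤ J := Nat.cast_nonneg J
  have hr0 : 0 ≤ |α| ^ (-(2 : ℝ) / ((n + 2 : ℕ) : ℝ)) := Real.rpow_nonneg hα0.le _
  constructor
  · have h := int_le hm (f := fun a => ‖MB (n + 2) c (α * a)‖ ^ 2) (K := ((3 : ℝ) ^ J) ^ 2)
      (fun a => by positivity) (by positivity)
      (fun a _ _ => pow_le_pow_left₀ (norm_nonneg _) ((MB_triv _ _ _).trans hcZ) 2)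
    refine h.trans ?_
    apply mul_le_mul_of_nonneg_right _ (by positivity)
    nlinarith
  · rcases Nat.eq_zero_or_pos c with rfl | hc
    · have h := int_le hm (f := fun a => ‖MB (n + 2) 0 (α * a)‖ ^ 2) (K := 1)
        (fun a => by positivity) (by norm_num)
        (fun a _ _ => by
          have h1 := MB_triv (n + 2) 0 (α * a)
          rw [pow_zero] at h1
          calc ‖MB (n + 2) 0 (α * a)‖ ^ 2 ≤ 1 ^ 2 := pow_le_pow_left₀ (norm_nonneg _) h1 2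
            _ = 1 := one_pow 2)
      refine h.trans ?_
      have e1 : (m : ℝ) * 1 ≤ 4 * m * m * (1 + J) := by nlinarith [mul_nonneg (mul_nonneg (by linarith : (0:ℝ) ≤ m) (by linarith : (0:ℝ) ≤ m)) hJ0]
      have e2 : 0 ≤ 4 * (m : ℝ) * m * (1 + J) := by positivity
      nlinarith
    · obtain ⟨d, rfl⟩ : ∃ d, c = d + 1 := ⟨c - 1, by omega⟩
      have h := int_le hm (f := fun a => ‖MB (n + 2) (d + 1) (α * a)‖ ^ 2)
        (K := 4 * (m * |α| ^ (-(2 : ℝ) / ((n + 2 : ℕ) : ℝ))))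
        (fun a => by positivity) (by positivity)
        (fun a ha _ => by
          have ha0 : 0 < a := lt_of_lt_of_le (by positivity) ha
          have h1 := MB_sq n d (mul_ne_zero hα ha0.ne')
          have h2 := rpow_le hm (k := n + 2) (by omega) hα ha
          linarith)
      refine h.trans ?_
      have e2 : 0 ≤ 4 * (m : ℝ) * m := by positivity
      calc (m : ℝ) * (4 * (m * |α| ^ (-(2 : ℝ) / ((n + 2 : ℕ) : ℝ))))
          = 4 * m * m * 1 * (0 + |α| ^ (-(2 : ℝ) / ((n + 2 : ℕ) : ℝ))) := by ring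
        _ ≤ 4 * m * m * (1 + J) * ((3 : ℝ) ^ J + |α| ^ (-(2 : ℝ) / ((n + 2 : ℕ) : ℝ))) := by
            apply mul_le_mul
            · exact mul_le_mul_of_nonneg_left (by linarith) e2
            · linarith
            · linarith
            · positivity

end Pool.Agent.K7.H15.AG
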